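import Pool.Agent.Helper61.BT.Goals

/-! BT, packet PRJ: the projection onto the closure of the values `v` or `v - y v`. -/

set_option autoImplicit false

namespace Pool.Agent.Helper95.BT

open Pool.Agent.Helper38.VF Pool.Agent.Helper61.BT

universe u

theorem memlp_perm {X : Type u} (σ : Equiv.Perm X) (f : L2 X) :
    Memℓp (fun a => f (σ a)) (2 : ENNReal) := by
  have h2 : (0 : ℝ) < (2 : ENNReal).toReal := by norm_num
  have hf := (memℓp_gen_iff h2).1 (lp.memℓp f)
  rw [memℓp_gen_iff h2]
  exact (Equiv.summable_iff σ).2 hf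

/-- reindexing -/
def per {X : Type u} (σ : Equiv.Perm X) (f : L2 X) : L2 X := ⟨fun a => f (σ a), memlp_perm σ f⟩

theorem l2ext {X : Type u} {f g : L2 X} (h : ∀ a, f a = g a) : f = g := by
  apply Subtype.ext
  funext a
  exact h a

theorem norm_per {X : Type u} (σ : Equiv.Perm X) (f : L2 X) : ‖per σ f‖ = ‖f‖ := by
  have h2 : (0 : ℝ) < (2 : ENNReal).toReal := by norm_num
  rw [lp.norm_eq_tsum_rpow h2, lp.norm_eq_tsum_rpow h2]
  congr 1
  exact Equiv.tsum_eq σ fun a => ‖f a‖ ^ (2 : ENNReal).toReal

/-- reindexing as a linear isometric equivalence -/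
def perE {X : Type u} (σ : Equiv.Perm X) : L2 X ≃ₗᵢ[ℝ] L2 X where
  toFun := per σ
  invFun := per σ.symm
  left_inv f := l2ext fun a => by
    change f (σ (σ.symm a)) = f a
    rw [Equiv.apply_symm_apply]
  right_inv f := l2ext fun a => by
    change f (σ.symm (σ a)) = f a
    rw [Equiv.symm_apply_apply]
  map_add' f f' := rfl
  map_smul' r f := rfl
  norm_map' f := norm_per σ f

theorem perE_apply {X : Type u} (σ : Equiv.Perm X) (f : L2 X) (a : X) : perE σ f a = f (σ a) := rfl

section

variable {A : Type u} [Group A] [DistribMulAction A (L2 A)]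

theorem act_smul (hact : LeftAct A) (g : A) (c : ℝ) (v : L2 A) : g • (c • v) = c • (g • v) := by
  apply l2ext
  intro a
  rw [hact, lp.coeFn_smul, lp.coeFn_smul, Pi.smul_apply, Pi.smul_apply, hact]

theorem uv_add (o : Option A) (v w : L2 A) : Uv o (v + w) = Uv o v + Uv o w := by
  cases o with
  | none => rfl
  | some y =>
    simp only [Uv]
    rw [smul_add]
    abel

theorem uv_smul (hact : LeftAct A) (o : Option A) (c : ℝ) (v : L2 A) :
    Uv o (c • v) = c • Uv o v := by
  cases o with
  | none => rfl
  | some y =>
    simp only [Uv]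
    rw [act_smul hact, smul_sub]

theorem uv_zero (o : Option A) : Uv o (0 : L2 A) = 0 := by
  cases o with
  | none => rfl
  | some y =>
    simp only [Uv]
    rw [smul_zero, sub_zero]

/-- the values -/
def VV (hact : LeftAct A) (E : Subgroup A) (o : Option A) : Submodule ℝ (L2 A) where
  carrier := {z : L2 A | ∃ v : L2 A, (∀ e ∈ E, e • v = v) ∧ z = Uv o v}
  zero_mem' := ⟨0, fun e _ => smul_zero e, (uv_zero o).symm⟩
  add_mem' := by
    rintro _ _ ⟨v, hv, rfl⟩ ⟨w, hw, rfl⟩
    exact ⟨v + w, fun e he => by rw [smul_add, hv e he, hw e he], (uv_add o v w).symm⟩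
  smul_mem' := by
    rintro c _ ⟨v, hv, rfl⟩
    exact ⟨c • v, fun e he => by rw [act_smul hact, hv e he], (uv_smul hact o c v).symm⟩

/-- right translations -/
def RR (h : A) : L2 A ≃ₗᵢ[ℝ] L2 A := perE (Equiv.mulRight h)

omit [DistribMulAction A (L2 A)] in
theorem RR_apply (h : A) (f : L2 A) (a : A) : RR h f a = f (a * h) := rfl

theorem RR_act (hact : LeftAct A) (h g : A) (v : L2 A) : RR h (g • v) = g • RR h v := by
  apply l2ext
  intro a
  rw [RR_apply, hact, hact, RR_apply, mul_assoc]

theorem RR_uv (hact : LeftAct A) (h : A) (o : Option A) (v : L2 A) :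
    RR h (Uv o v) = Uv o (RR h v) := by
  cases o with
  | none => rfl
  | some y =>
    simp only [Uv]
    rw [map_sub, RR_act hact]

theorem RR_mem (hact : LeftAct A) (E : Subgroup A) (o : Option A) (h : A) {z : L2 A}
    (hz : z ∈ VV hact E o) : RR h z ∈ VV hact E o := by
  obtain ⟨v, hv, rfl⟩ := hz
  exact ⟨RR h v, fun e he => by rw [← RR_act hact, hv e he], RR_uv hact h o v⟩

theorem RR_mem_closure (hact : LeftAct A) (E : Subgroup A) (o : Option A) (h : A) {z : L2 A}
    (hz : z ∈ (VV hact E o).topologicalClosure) : RR h z ∈ (VV hact E o).topologicalClosure := by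
  have h1 : z ∈ closure ((VV hact E o : Submodule ℝ (L2 A)) : Set (L2 A)) := hz
  have h2 : RR h z ∈ closure ((VV hact E o : Submodule ℝ (L2 A)) : Set (L2 A)) :=
    map_mem_closure (RR h).continuous h1 (fun x hx => RR_mem hact E o h hx)
  exact h2

theorem RR_inv (h : A) (z : L2 A) : RR h (RR h⁻¹ z) = z := by
  apply l2ext
  intro a
  rw [RR_apply, RR_apply, mul_inv_cancel_right]

theorem RR_proj (hact : LeftAct A) (E : Subgroup A) (o : Option A) (h : A) (f : L2 A) :
    (VV hact E o).topologicalClosure.starProjection (RR h f)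
      = RR h ((VV hact E o).topologicalClosure.starProjection f) := by
  apply Submodule.eq_starProjection_of_mem_of_inner_eq_zero
  · exact RR_mem_closure hact E o h (Submodule.starProjection_apply_mem _ _)
  · intro w hw
    have h1 : w = RR h (RR h⁻¹ w) := (RR_inv h w).symm
    rw [← map_sub, h1, LinearIsometryEquiv.inner_map_map]
    exact Submodule.starProjection_inner_eq_zero _ _ (RR_mem_closure hact E o h⁻¹ hw)

end

theorem prj : PrjStmt.{u} := by
  classical
  intro A _ _ hact E N o hE hN ho
  set V := (VV hact E o).topologicalClosure with hV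
  refine ⟨V.starProjection, ?_, ?_, ?_, ?_, ?_⟩
  · intro f g
    exact Submodule.inner_starProjection_left_eq_right V f g
  · intro f
    exact Submodule.starProjection_eq_self_iff.mpr (Submodule.starProjection_apply_mem _ _)
  · intro f
    have h1 : V.starProjection f ∈ V := Submodule.starProjection_apply_mem _ _
    exact h1
  · intro h f f' hf a
    have h1 : f' = RR h f := l2ext hf
    have h2 := RR_proj hact E o h f
    rw [h1]
    exact congrArg (fun g : L2 A => g a) h2
  · intro δ₁ hδ
    have : Fintype E := hE.fintype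
    have hcard : (Fintype.card E : ℝ) ≤ N := by
      rw [← Nat.card_eq_fintype_card]; exact_mod_cast hN
    have hcard1 : (1 : ℝ) ≤ Fintype.card E := by
      have : 0 < Fintype.card E := Fintype.card_pos
      exact_mod_cast this
    -- the indicator function of `E`
    set S : Finset A := hE.toFinset with hS
    have hSm : ∀ a, a ∈ S ↔ a ∈ E := by
      intro a; rw [hS, Set.Finite.mem_toFinset]; rfl
    set v : L2 A := ∑ b ∈ S, lp.single 2 b (1 : ℝ) with hv
    have hvap : ∀ a, v a = if a ∈ E then 1 else 0 := by
      intro a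
      rw [hv, lp.coeFn_sum, Finset.sum_apply]
      simp only [lp.single_apply]
      by_cases ha : a ∈ E
      · rw [if_pos ha, Finset.sum_eq_single a]
        · simp
        · intro b _ hb
          rw [Pi.single_eq_of_ne]
          exact fun h => hb h.symm
        · intro h
          exact absurd ((hSm a).mpr ha) h
      · rw [if_neg ha]
        apply Finset.sum_eq_zero
        intro b hb
        rw [Pi.single_eq_of_ne]
        intro h
        apply ha
        rw [h]
        exact (hSm b).mp hb
    have hvE : ∀ e ∈ E, e • v = v := by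
      intro e he
      apply l2ext
      intro a
      rw [hact, hvap, hvap]
      have : (e⁻¹ * a ∈ E) ↔ a ∈ E := E.mul_mem_cancel_left (E.inv_mem he)
      simp only [this]
    have hδ1 : δ₁ = lp.single 2 1 (1 : ℝ) := by
      apply l2ext
      intro a
      rw [hδ, lp.single_apply]
      by_cases ha : a = 1
      · subst ha; simp
      · rw [if_neg ha, Pi.single_eq_of_ne ha]
    have hin : ∀ f : L2 A, inner ℝ f δ₁ = f 1 := by
      intro f
      rw [hδ1, lp.inner_single_right]
      simp
    have hvv : ∀ f : L2 A, inner ℝ f v = ∑ b ∈ S, f b := by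
      intro f
      rw [hv, inner_sum]
      apply Finset.sum_congr rfl
      intro b _
      rw [lp.inner_single_right]
      simp
    have hScard : (S.card : ℝ) = Fintype.card E := by
      norm_cast
      rw [hS]
      rw [← Set.ncard_eq_toFinset_card _ hE, ← Nat.card_coe_set_eq]
      exact Nat.card_eq_fintype_card
    have hnv : ‖v‖ ^ 2 = Fintype.card E := by
      rw [← real_inner_self_eq_norm_sq, hvv, ← hScard]
      rw [Finset.sum_congr rfl (fun b hb => by rw [hvap b, if_pos ((hSm b).mp hb)])]
      simp
    set z : L2 A := Uv o v with hz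
    have hz1 : z 1 = 1 := by
      rw [hz]
      cases o with
      | none =>
        simp only [Uv]
        rw [hvap, if_pos E.one_mem]
      | some y =>
        simp only [Uv]
        rw [lp.coeFn_sub, Pi.sub_apply, hact, hvap, hvap, if_pos E.one_mem, mul_one, if_neg]
        · ring
        · intro h
          exact ho y rfl (by simpa using E.inv_mem h)
    have hznorm : ‖z‖ ^ 2 ≤ 2 * N := by
      rw [hz]
      cases o with
      | none =>
        simp only [Uv]
        rw [hnv]
        linarith
      | some y =>
        simp only [Uv]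
        have hy : y ∉ E := ho y rfl
        have e1 : ‖y • v‖ ^ 2 = ‖v‖ ^ 2 := by
          have : y • v = perE (Equiv.mulLeft y⁻¹) v := l2ext (fun a => by rw [hact]; rfl)
          rw [this, LinearIsometryEquiv.norm_map]
        have e2 : inner ℝ (y • v) v = (0 : ℝ) := by
          rw [hvv]
          apply Finset.sum_eq_zero
          intro b hb
          rw [hact, hvap, if_neg]
          intro h
          apply hy
          have h3 := E.mul_mem ((hSm b).mp hb) (E.inv_mem h)
          simpa using h3
        rw [@norm_sub_sq_real, real_inner_comm, e2, e1, hnv]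
        linarith
    have hzV : z ∈ V := Submodule.le_topologicalClosure _ ⟨v, hvE, rfl⟩
    have h1 : inner ℝ z (V.starProjection δ₁) = (1 : ℝ) := by
      rw [← Submodule.inner_starProjection_left_eq_right V z δ₁,
        Submodule.starProjection_eq_self_iff.mpr hzV, hin, hz1]
    have h2 : ‖V.starProjection δ₁‖ ^ 2 = (V.starProjection δ₁) 1 := by
      rw [← hin, ← real_inner_self_eq_norm_sq,
        Submodule.inner_starProjection_left_eq_right V δ₁ (V.starProjection δ₁),
        Submodule.starProjection_eq_self_iff.mpr (Submodule.starProjection_apply_mem _ _)]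
      rw [real_inner_comm]
    have h3 : (1 : ℝ) ≤ ‖z‖ * ‖V.starProjection δ₁‖ := by
      rw [← h1]; exact real_inner_le_norm _ _
    have h4 : (1 : ℝ) ≤ ‖z‖ ^ 2 * ‖V.starProjection δ₁‖ ^ 2 := by
      have : (1 : ℝ) ≤ (‖z‖ * ‖V.starProjection δ₁‖) ^ 2 := by
        have h0 : 0 ≤ ‖z‖ * ‖V.starProjection δ₁‖ := by positivity
        nlinarith
      rwa [mul_pow] at this
    have hN0 : (0 : ℝ) < N := by linarith
    rw [← h2, div_le_iff₀ (by positivity)]
    have h5 : ‖z‖ ^ 2 * ‖V.starProjection δ₁‖ ^ 2 ≤ (2 * N) * ‖V.starProjection δ₁‖ ^ 2 :=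
      mul_le_mul_of_nonneg_right hznorm (by positivity)
    linarith

end Pool.Agent.Helper95.BT
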