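import Pool.Agent.Helper61.BT.Goals

/-! BT, packet PRK: the diagonal projection. -/

set_option autoImplicit false

namespace Pool.Agent.Helper95.BT.K

open Pool.Agent.Helper38.VF Pool.Agent.Helper61.BT

universe u

theorem l2ext {X : Type u} {f g : L2 X} (h : ∀ a, f a = g a) : f = g := by
  apply Subtype.ext
  funext a
  exact h a

theorem prk : KurStmt.{u} → PrkStmt.{u} := by
  classical
  intro hkur A _ k π hsym hidem hequi N htr
  obtain ⟨T, hT⟩ := hkur A k
  have hTs : ∀ (f : L2 (Fin k × A)) (i : Fin k) (a : A), (T.symm f) i a = f (i, a) := by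
    intro f i a
    rw [← hT (T.symm f) i a, ContinuousLinearEquiv.apply_symm_apply]
  set D : (Fin k → L2 A) →L[ℝ] (Fin k → L2 A) :=
    ContinuousLinearMap.pi (fun i => (π i).comp (ContinuousLinearMap.proj i)) with hD
  have hDa : ∀ e i, D e i = π i (e i) := fun e i => rfl
  set P : L2 (Fin k × A) →L[ℝ] L2 (Fin k × A) :=
    ((T : (Fin k → L2 A) →L[ℝ] L2 (Fin k × A)).comp D).comp
      (T.symm : L2 (Fin k × A) →L[ℝ] (Fin k → L2 A)) with hP
  have hPa : ∀ f i a, (P f) (i, a) = (π i (T.symm f i)) a := by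
    intro f i a
    have : P f = T (D (T.symm f)) := rfl
    rw [this, hT, hDa]
  have hrow : ∀ (f : L2 (Fin k × A)) (e : Fin k → L2 A), (∀ i a, e i a = f (i, a)) →
      e = T.symm f := by
    intro f e he
    funext i
    apply l2ext
    intro a
    rw [he, hTs]
  have hinner : ∀ f g : L2 (Fin k × A), inner ℝ f g = ∑ i, inner ℝ (T.symm f i) (T.symm g i) := by
    intro f g
    rw [lp.inner_eq_tsum]
    have hs : Summable (fun z : Fin k × A => inner ℝ (f z) (g z)) := lp.summable_inner f g
    have hs1 : ∀ i : Fin k, Summable (fun a : A => inner ℝ (f (i, a)) (g (i, a))) := by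
      intro i
      have := lp.summable_inner (𝕜 := ℝ) (T.symm f i) (T.symm g i)
      simpa only [hTs] using this
    rw [hs.tsum_prod' hs1, tsum_fintype]
    apply Finset.sum_congr rfl
    intro i _
    rw [lp.inner_eq_tsum]
    simp only [hTs]
  have hTP : ∀ f i, T.symm (P f) i = π i (T.symm f i) := by
    intro f i
    apply l2ext
    intro a
    rw [hTs, hPa]
  refine ⟨P, ?_, ?_, ?_, ?_, ?_⟩
  · intro h f f' hf z
    obtain ⟨i, a⟩ := z
    rw [hPa, hPa]
    apply hequi i h (T.symm f i) (T.symm f' i)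
    intro b
    rw [hTs, hTs, hf]
  · intro f g
    rw [hinner, hinner]
    apply Finset.sum_congr rfl
    intro i _
    rw [hTP, hTP, hsym]
  · intro f
    apply l2ext
    rintro ⟨i, a⟩
    rw [hPa, hTP, hidem, hPa]
  · intro f e he i a
    rw [hPa, hrow f e he]
  · have hterm : ∀ j : Fin k, 1 / (2 * (N : ℝ)) ≤
        (P (lp.single 2 (j, (1 : A)) (1 : ℝ))) (j, 1) := by
      intro j
      rw [hPa]
      apply htr j
      intro a
      rw [hTs, lp.single_apply]
      by_cases ha : a = 1
      · subst ha; simp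
      · rw [if_neg ha, Pi.single_eq_of_ne]
        intro h
        exact ha (Prod.ext_iff.mp h).2
    have hsum : ∑ _j : Fin k, 1 / (2 * (N : ℝ)) ≤
        ∑ j : Fin k, (P (lp.single 2 (j, (1 : A)) (1 : ℝ))) (j, 1) :=
      Finset.sum_le_sum (fun j _ => hterm j)
    have hl : ∑ _j : Fin k, 1 / (2 * (N : ℝ)) = (k : ℝ) / (2 * N) := by
      rw [Finset.sum_const, Finset.card_univ, Fintype.card_fin, nsmul_eq_mul]
      ring
    rw [← hl]
    exact hsum

end Pool.Agent.Helper95.BT.K
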